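import Mathlib

/-!
# The moment exponent of random matrix products can fail to be analytic at two points (`d = 2`)

We construct a probability measure on `GL(2, ℝ)` with two atoms, strongly irreducible and proximal,
whose moment exponent `k` is constant on `[-3, -2]` but not constant on either side of it.
-/

namespace Pool.Agent.Results.MP_2489e7_pr.TwoBreakPoints

open MeasureTheory Filter Topology Matrix

/-- The Borel sigma-algebra on `GL(2, ℝ)`. -/
instance : MeasurableSpace (GL (Fin 2) ℝ) := borel _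

instance : BorelSpace (GL (Fin 2) ℝ) := ⟨rfl⟩

/-- The operator norm of a matrix for the Euclidean norm on `ℝ²`. -/
noncomputable def opNorm (A : Matrix (Fin 2) (Fin 2) ℝ) : ℝ :=
  ‖Matrix.toEuclideanCLM (𝕜 := ℝ) A‖

/-- The `n`-th convolution power of `μ`: the law of a product of `n` independent `μ`-distributed
matrices. -/
noncomputable def convPow (μ : Measure (GL (Fin 2) ℝ)) : ℕ → Measure (GL (Fin 2) ℝ)
  | 0 => Measure.dirac 1
  | n + 1 => μ ∗ₘ convPow μ n

/-- The closed semigroup generated by the support of `μ`. -/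
def semigroupOf (μ : Measure (GL (Fin 2) ℝ)) : Set (GL (Fin 2) ℝ) :=
  closure (Subsemigroup.closure μ.support : Set (GL (Fin 2) ℝ))

/-- No finite union of proper nonzero subspaces of `ℝ²` is invariant under all elements of `S`. -/
def StronglyIrreducible (S : Set (GL (Fin 2) ℝ)) : Prop :=
  ∀ F : Finset (Submodule ℝ (Fin 2 → ℝ)), F.Nonempty → (∀ W ∈ F, W ≠ ⊥ ∧ W ≠ ⊤) →
    ¬ ∀ g ∈ S, ∀ W ∈ F, ∀ x ∈ W, ∃ W' ∈ F, (g : Matrix (Fin 2) (Fin 2) ℝ) *ᵥ x ∈ W'

/-- Some element of `S` has a simple (complex) eigenvalue of strictly largest modulus. -/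
def Proximal (S : Set (GL (Fin 2) ℝ)) : Prop :=
  ∃ g ∈ S, ∃ z : ℂ,
    ((g : Matrix (Fin 2) (Fin 2) ℝ).map (algebraMap ℝ ℂ)).charpoly.rootMultiplicity z = 1 ∧
    ∀ w : ℂ, ((g : Matrix (Fin 2) (Fin 2) ℝ).map (algebraMap ℝ ℂ)).charpoly.IsRoot w →
      w ≠ z → ‖w‖ < ‖z‖

/-- `k` is the moment exponent of `μ`: for every real `t`,
`k(t) = lim (1/n) log ∫ |g|^t dμⁿ(g)`. -/
def IsMomentExponent (μ : Measure (GL (Fin 2) ℝ)) (k : ℝ → ℝ) : Prop :=
  ∀ t : ℝ, Tendsto (fun n : ℕ => (1 / (n : ℝ)) *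
    Real.log (∫ g, opNorm (g : Matrix (Fin 2) (Fin 2) ℝ) ^ t ∂(convPow μ n))) atTop (𝓝 (k t))

/-! ### Topology of `GL(2, ℝ)` -/

instance : SecondCountableTopology (GL (Fin 2) ℝ) := by
  have : SecondCountableTopology (Matrix (Fin 2) (Fin 2) ℝ) :=
    inferInstanceAs (SecondCountableTopology (Fin 2 → Fin 2 → ℝ))
  have : SecondCountableTopology (Matrix (Fin 2) (Fin 2) ℝ)ᵐᵒᵖ :=
    MulOpposite.opHomeomorph.symm.secondCountableTopology
  exact Units.isEmbedding_embedProduct.secondCountableTopology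

/-! ### The two-point expectation -/

section Expectation

variable (p q : ℝ) (a b : GL (Fin 2) ℝ)

/-- Expectation over words of length `n` in the letters `a` (weight `p`) and `b` (weight `q`). -/
noncomputable def E : ℕ → (GL (Fin 2) ℝ → ℝ) → ℝ
  | 0, f => f 1
  | n + 1, f => p * E n (fun h => f (a * h)) + q * E n (fun h => f (b * h))

variable {p q a b}

lemma E_mono (hp : 0 ≤ p) (hq : 0 ≤ q) (P : GL (Fin 2) ℝ → Prop) (h1 : P 1)
    (ha : ∀ h, P h → P (a * h)) (hb : ∀ h, P h → P (b * h)) (n : ℕ) :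
    ∀ f g : GL (Fin 2) ℝ → ℝ, (∀ h, P h → f h ≤ g h) → E p q a b n f ≤ E p q a b n g := by
  induction n with
  | zero => intro f g hfg; exact hfg 1 h1
  | succ n ih =>
    intro f g hfg
    exact add_le_add (mul_le_mul_of_nonneg_left (ih _ _ fun h hh => hfg _ (ha h hh)) hp)
      (mul_le_mul_of_nonneg_left (ih _ _ fun h hh => hfg _ (hb h hh)) hq)

lemma E_const_mul (c : ℝ) (n : ℕ) :
    ∀ f : GL (Fin 2) ℝ → ℝ, E p q a b n (fun h => c * f h) = c * E p q a b n f := by
  induction n with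
  | zero => intro f; rfl
  | succ n ih =>
    intro f
    simp only [E]
    rw [ih (fun h => f (a * h)), ih (fun h => f (b * h))]
    ring

lemma E_const (hpq : p + q = 1) (c : ℝ) (n : ℕ) : E p q a b n (fun _ => c) = c := by
  induction n with
  | zero => rfl
  | succ n ih => simp only [E]; rw [ih, ← add_mul, hpq, one_mul]

lemma E_add (m n : ℕ) : ∀ f : GL (Fin 2) ℝ → ℝ,
    E p q a b (m + n) f = E p q a b m (fun g => E p q a b n (fun h => f (g * h))) := by
  induction m with
  | zero => intro f; simp [E]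
  | succ m ih =>
    intro f
    rw [Nat.succ_add]
    simp only [E]
    rw [ih, ih]
    simp only [mul_assoc]

lemma E_pos (hp : 0 < p) (hq : 0 ≤ q) (n : ℕ) :
    ∀ f : GL (Fin 2) ℝ → ℝ, (∀ h, 0 < f h) → 0 < E p q a b n f := by
  induction n with
  | zero => intro f hf; exact hf 1
  | succ n ih =>
    intro f hf
    exact add_pos_of_pos_of_nonneg (mul_pos hp (ih _ fun h => hf _))
      (mul_nonneg hq (ih _ fun h => hf _).le)

lemma E_lower (hp : 0 ≤ p) (hq : 0 ≤ q) (n : ℕ) :
    ∀ f : GL (Fin 2) ℝ → ℝ, (∀ h, 0 ≤ f h) → p ^ n * f (a ^ n) ≤ E p q a b n f := by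
  induction n with
  | zero => intro f _; simp [E]
  | succ n ih =>
    intro f hf
    have h1 := ih (fun h => f (a * h)) fun h => hf _
    have h2 : 0 ≤ E p q a b n (fun h => f (b * h)) := by
      have := E_mono hp hq (fun _ => True) trivial (a := a) (b := b) (fun _ _ => trivial)
        (fun _ _ => trivial) n (fun _ => 0) (fun h => f (b * h)) fun h _ => hf _
      refine le_trans (le_of_eq ?_) this
      have := E_const_mul (p := p) (q := q) (a := a) (b := b) 0 n (fun _ => 0)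
      simpa using this.symm
    simp only [E]
    have h3 : p ^ (n + 1) * f (a ^ (n + 1)) = p * (p ^ n * f (a * a ^ n)) := by
      rw [pow_succ' a n, pow_succ]; ring
    rw [h3]
    have := mul_le_mul_of_nonneg_left h1 hp
    have h4 := mul_nonneg hq h2
    linarith

lemma E_swap (n : ℕ) : ∀ f : GL (Fin 2) ℝ → ℝ, E p q a b n f = E q p b a n f := by
  induction n with
  | zero => intro f; rfl
  | succ n ih => intro f; simp only [E]; rw [ih, ih, add_comm]

end Expectation

/-- The two-atom measure. -/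
noncomputable def twoPoint (p q : ℝ) (a b : GL (Fin 2) ℝ) : Measure (GL (Fin 2) ℝ) :=
  ENNReal.ofReal p • Measure.dirac a + ENNReal.ofReal q • Measure.dirac b

lemma twoPoint_prob {p q : ℝ} (hp : 0 ≤ p) (hq : 0 ≤ q) (hpq : p + q = 1) (a b : GL (Fin 2) ℝ) :
    IsProbabilityMeasure (twoPoint p q a b) := by
  constructor
  simp only [twoPoint, Measure.add_apply, Measure.smul_apply, measure_univ, smul_eq_mul, mul_one]
  rw [← ENNReal.ofReal_add hp hq, hpq, ENNReal.ofReal_one]

lemma twoPoint_mconv (p q : ℝ) (a b : GL (Fin 2) ℝ) (ν : Measure (GL (Fin 2) ℝ)) [SFinite ν] :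
    twoPoint p q a b ∗ₘ ν = ENNReal.ofReal p • ν.map (fun h => a * h) +
      ENNReal.ofReal q • ν.map (fun h => b * h) := by
  rw [twoPoint, Measure.add_mconv, Measure.mconv_smul_left, Measure.mconv_smul_left,
    Measure.dirac_mconv, Measure.dirac_mconv]

lemma convPow_succ {p q : ℝ} (a b : GL (Fin 2) ℝ)
    (n : ℕ) [IsProbabilityMeasure (convPow (twoPoint p q a b) n)] :
    convPow (twoPoint p q a b) (n + 1) =
      ENNReal.ofReal p • (convPow (twoPoint p q a b) n).map (fun h => a * h) +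
      ENNReal.ofReal q • (convPow (twoPoint p q a b) n).map (fun h => b * h) :=
  twoPoint_mconv p q a b _

lemma convPow_prob {p q : ℝ} (hp : 0 ≤ p) (hq : 0 ≤ q) (hpq : p + q = 1) (a b : GL (Fin 2) ℝ)
    (n : ℕ) : IsProbabilityMeasure (convPow (twoPoint p q a b) n) := by
  have := twoPoint_prob hp hq hpq a b
  induction n with
  | zero => rw [convPow]; infer_instance
  | succ n ih => rw [convPow]; infer_instance

lemma integrable_all {p q : ℝ} (hp : 0 ≤ p) (hq : 0 ≤ q) (hpq : p + q = 1) (a b : GL (Fin 2) ℝ)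
    (n : ℕ) : ∀ f : GL (Fin 2) ℝ → ℝ, Integrable f (convPow (twoPoint p q a b) n) := by
  induction n with
  | zero => intro f; exact integrable_dirac (by simp)
  | succ n ih =>
    intro f
    have := convPow_prob hp hq hpq a b n
    rw [convPow_succ]
    refine Integrable.add_measure (Integrable.smul_measure ?_ ENNReal.ofReal_ne_top)
      (Integrable.smul_measure ?_ ENNReal.ofReal_ne_top)
    · rw [(measurableEmbedding_mulLeft a).integrable_map_iff]; exact ih _
    · rw [(measurableEmbedding_mulLeft b).integrable_map_iff]; exact ih _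

lemma integral_eq_E {p q : ℝ} (hp : 0 ≤ p) (hq : 0 ≤ q) (hpq : p + q = 1) (a b : GL (Fin 2) ℝ)
    (n : ℕ) : ∀ f : GL (Fin 2) ℝ → ℝ,
      ∫ g, f g ∂(convPow (twoPoint p q a b) n) = E p q a b n f := by
  induction n with
  | zero => intro f; simp [convPow, E]
  | succ n ih =>
    intro f
    have := convPow_prob hp hq hpq a b n
    have hint := integrable_all hp hq hpq a b n
    rw [convPow_succ, integral_add_measure, integral_smul_measure,
      integral_smul_measure, (measurableEmbedding_mulLeft a).integral_map,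
      (measurableEmbedding_mulLeft b).integral_map, ih, ih, ENNReal.toReal_ofReal hp,
      ENNReal.toReal_ofReal hq]
    · rfl
    · refine Integrable.smul_measure ?_ ENNReal.ofReal_ne_top
      rw [(measurableEmbedding_mulLeft a).integrable_map_iff]; exact hint _
    · refine Integrable.smul_measure ?_ ENNReal.ofReal_ne_top
      rw [(measurableEmbedding_mulLeft b).integrable_map_iff]; exact hint _

/-! ### The operator norm -/

lemma opNorm_mul_le (A B : Matrix (Fin 2) (Fin 2) ℝ) : opNorm (A * B) ≤ opNorm A * opNorm B := by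
  unfold opNorm
  rw [map_mul]
  exact norm_mul_le _ _

lemma opNorm_one : opNorm 1 = 1 := by
  unfold opNorm
  rw [map_one]
  exact norm_one

lemma opNorm_nonneg (A : Matrix (Fin 2) (Fin 2) ℝ) : 0 ≤ opNorm A := norm_nonneg _

lemma opNorm_le_of_sq (A : Matrix (Fin 2) (Fin 2) ℝ) (C : ℝ) (hC : 0 ≤ C)
    (h : A 0 0 ^ 2 + A 0 1 ^ 2 + A 1 0 ^ 2 + A 1 1 ^ 2 ≤ C ^ 2) : opNorm A ≤ C := by
  unfold opNorm
  refine ContinuousLinearMap.opNorm_le_bound _ hC fun x => ?_
  have h1 : ‖(Matrix.toEuclideanCLM (𝕜 := ℝ) A) x‖ ^ 2 =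
      (A 0 0 * x 0 + A 0 1 * x 1) ^ 2 + (A 1 0 * x 0 + A 1 1 * x 1) ^ 2 := by
    rw [EuclideanSpace.norm_sq_eq, Fin.sum_univ_two]
    have h2 : (Matrix.toEuclideanCLM (𝕜 := ℝ) A) x = WithLp.toLp 2 (A *ᵥ x.ofLp) := rfl
    rw [h2]
    simp [Matrix.mulVec, dotProduct, Fin.sum_univ_two]
  have h3 : ‖x‖ ^ 2 = x 0 ^ 2 + x 1 ^ 2 := by
    rw [EuclideanSpace.norm_sq_eq, Fin.sum_univ_two]; simp
  have h4 : ‖(Matrix.toEuclideanCLM (𝕜 := ℝ) A) x‖ ^ 2 ≤ (C * ‖x‖) ^ 2 := by
    rw [h1, mul_pow, h3]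
    nlinarith [sq_nonneg (A 0 0 * x 1 - A 0 1 * x 0), sq_nonneg (A 1 0 * x 1 - A 1 1 * x 0),
      mul_le_mul_of_nonneg_right h (by positivity : 0 ≤ x 0 ^ 2 + x 1 ^ 2)]
  exact le_of_sq_le_sq h4 (by positivity)

lemma entry_le_opNorm (A : Matrix (Fin 2) (Fin 2) ℝ) (i j : Fin 2) : A i j ≤ opNorm A := by
  have h1 := (Matrix.toEuclideanCLM (𝕜 := ℝ) A).le_opNorm (EuclideanSpace.single j (1 : ℝ))
  rw [PiLp.norm_single, norm_one, mul_one] at h1
  have h2 : (Matrix.toEuclideanCLM (𝕜 := ℝ) A) (EuclideanSpace.single j (1 : ℝ)) i = A i j := by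
    have h2 : (Matrix.toEuclideanCLM (𝕜 := ℝ) A) (EuclideanSpace.single j (1 : ℝ)) =
      WithLp.toLp 2 (A *ᵥ (EuclideanSpace.single j (1 : ℝ)).ofLp) := rfl
    rw [h2]
    simp
  have h3 := PiLp.norm_apply_le ((Matrix.toEuclideanCLM (𝕜 := ℝ) A)
    (EuclideanSpace.single j (1 : ℝ))) i
  rw [h2] at h3
  exact (le_abs_self _).trans (h3.trans h1)

lemma opNorm_pos (g : GL (Fin 2) ℝ) : 0 < opNorm (g : Matrix (Fin 2) (Fin 2) ℝ) := by
  have h := opNorm_mul_le (g : Matrix (Fin 2) (Fin 2) ℝ) ((g⁻¹ : GL (Fin 2) ℝ) : Matrix _ _ ℝ)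
  rw [← Units.val_mul, mul_inv_cancel, Units.val_one, opNorm_one] at h
  rcases (opNorm_nonneg (g : Matrix (Fin 2) (Fin 2) ℝ)).eq_or_lt with h0 | h0
  · rw [← h0, zero_mul] at h; linarith
  · exact h0

/-- `|g|^t`. -/
noncomputable def f (t : ℝ) (g : GL (Fin 2) ℝ) : ℝ := opNorm (g : Matrix (Fin 2) (Fin 2) ℝ) ^ t

lemma f_pos (t : ℝ) (g : GL (Fin 2) ℝ) : 0 < f t g := Real.rpow_pos_of_pos (opNorm_pos g) t

lemma f_one (t : ℝ) : f t 1 = 1 := by simp [f, opNorm_one]

lemma f_mul_le {t : ℝ} (ht : 0 ≤ t) (g h : GL (Fin 2) ℝ) : f t (g * h) ≤ f t g * f t h := by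
  unfold f
  rw [← Real.mul_rpow (opNorm_nonneg _) (opNorm_nonneg _), Units.val_mul]
  exact Real.rpow_le_rpow (opNorm_nonneg _) (opNorm_mul_le _ _) ht

lemma le_f_mul {t : ℝ} (ht : t ≤ 0) (g h : GL (Fin 2) ℝ) : f t g * f t h ≤ f t (g * h) := by
  unfold f
  rw [← Real.mul_rpow (opNorm_nonneg _) (opNorm_nonneg _)]
  exact Real.rpow_le_rpow_of_nonpos (opNorm_pos _)
    (by rw [Units.val_mul]; exact opNorm_mul_le _ _) ht

/-- A constant `K ≥ 1` with `K⁻¹ f(h) ≤ f(g h) ≤ K f(h)`. -/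
lemma exists_K (t : ℝ) (g : GL (Fin 2) ℝ) :
    ∃ K : ℝ, 1 ≤ K ∧ ∀ h, f t (g * h) ≤ K * f t h ∧ f t h ≤ K * f t (g * h) := by
  refine ⟨max 1 (max (max (f t g) (f t g⁻¹)) (max (f t g)⁻¹ (f t g⁻¹)⁻¹)), le_max_left _ _,
    fun h => ?_⟩
  set K := max 1 (max (max (f t g) (f t g⁻¹)) (max (f t g)⁻¹ (f t g⁻¹)⁻¹)) with hK
  have k1 : f t g ≤ K := (le_max_left _ _).trans ((le_max_left _ _).trans (le_max_right _ _))
  have k2 : f t g⁻¹ ≤ K := (le_max_right _ _).trans ((le_max_left _ _).trans (le_max_right _ _))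
  have k3 : (f t g)⁻¹ ≤ K := (le_max_left _ _).trans ((le_max_right _ _).trans (le_max_right _ _))
  have k4 : (f t g⁻¹)⁻¹ ≤ K :=
    (le_max_right _ _).trans ((le_max_right _ _).trans (le_max_right _ _))
  have hh := f_pos t h
  have hgh := f_pos t (g * h)
  rcases le_total 0 t with ht | ht
  · refine ⟨(f_mul_le ht g h).trans (mul_le_mul_of_nonneg_right k1 hh.le), ?_⟩
    have := f_mul_le ht g⁻¹ (g * h)
    rw [inv_mul_cancel_left] at this
    exact this.trans (mul_le_mul_of_nonneg_right k2 hgh.le)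
  · constructor
    · have := le_f_mul ht g⁻¹ (g * h)
      rw [inv_mul_cancel_left] at this
      have h5 : f t (g * h) ≤ (f t g⁻¹)⁻¹ * f t h := by
        rw [inv_mul_eq_div, le_div_iff₀ (f_pos t _)]; linarith
      exact h5.trans (mul_le_mul_of_nonneg_right k4 hh.le)
    · have := le_f_mul ht g h
      have h5 : f t h ≤ (f t g)⁻¹ * f t (g * h) := by
        rw [inv_mul_eq_div, le_div_iff₀ (f_pos t _)]; linarith
      exact h5.trans (mul_le_mul_of_nonneg_right k3 hgh.le)

section Fekete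

variable {p q : ℝ} {a b : GL (Fin 2) ℝ}

lemma E_mono' (hp : 0 ≤ p) (hq : 0 ≤ q) (n : ℕ) (f g : GL (Fin 2) ℝ → ℝ) (hfg : ∀ h, f h ≤ g h) :
    E p q a b n f ≤ E p q a b n g :=
  E_mono hp hq (fun _ => True) trivial (fun _ _ => trivial) (fun _ _ => trivial) n f g
    fun h _ => hfg h

lemma exists_bound (hp : 0 < p) (hq : 0 ≤ q) (hpq : p + q = 1) (t : ℝ) :
    ∃ K : ℝ, 1 ≤ K ∧ ∀ n, E p q a b n (f t) ≤ K ^ n ∧ 1 ≤ K ^ n * E p q a b n (f t) := by
  obtain ⟨Ka, hKa1, hKa⟩ := exists_K t a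
  obtain ⟨Kb, hKb1, hKb⟩ := exists_K t b
  refine ⟨max Ka Kb, hKa1.trans (le_max_left _ _), fun n => ?_⟩
  set K := max Ka Kb with hKdef
  have hK1 : 1 ≤ K := hKa1.trans (le_max_left _ _)
  have hK0 : 0 ≤ K := by linarith
  have ha : ∀ h, f t (a * h) ≤ K * f t h ∧ f t h ≤ K * f t (a * h) := fun h =>
    ⟨(hKa h).1.trans (mul_le_mul_of_nonneg_right (le_max_left _ _) (f_pos _ _).le),
     (hKa h).2.trans (mul_le_mul_of_nonneg_right (le_max_left _ _) (f_pos _ _).le)⟩
  have hb : ∀ h, f t (b * h) ≤ K * f t h ∧ f t h ≤ K * f t (b * h) := fun h =>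
    ⟨(hKb h).1.trans (mul_le_mul_of_nonneg_right (le_max_right _ _) (f_pos _ _).le),
     (hKb h).2.trans (mul_le_mul_of_nonneg_right (le_max_right _ _) (f_pos _ _).le)⟩
  induction n with
  | zero => simp [E, f_one]
  | succ n ih =>
    have e1 := E_mono' (a := a) (b := b) hp.le hq n _ _ fun h => (ha h).1
    have e2 := E_mono' (a := a) (b := b) hp.le hq n _ _ fun h => (hb h).1
    have e3 := E_mono' (a := a) (b := b) hp.le hq n _ _ fun h => (ha h).2
    have e4 := E_mono' (a := a) (b := b) hp.le hq n _ _ fun h => (hb h).2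
    rw [E_const_mul] at e1 e2 e3 e4
    have hKn : 0 ≤ K ^ n := by positivity
    simp only [E]
    constructor
    · calc p * E p q a b n (fun h => f t (a * h)) + q * E p q a b n (fun h => f t (b * h))
          ≤ p * (K * E p q a b n (f t)) + q * (K * E p q a b n (f t)) :=
            add_le_add (mul_le_mul_of_nonneg_left e1 hp.le) (mul_le_mul_of_nonneg_left e2 hq)
        _ = K * E p q a b n (f t) * (p + q) := by ring
        _ = K * E p q a b n (f t) := by rw [hpq, mul_one]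
        _ ≤ K * K ^ n := mul_le_mul_of_nonneg_left ih.1 hK0
        _ = K ^ (n + 1) := by ring
    · calc 1 ≤ K ^ n * E p q a b n (f t) := ih.2
        _ = K ^ n * (p * E p q a b n (f t) + q * E p q a b n (f t)) := by
            rw [← add_mul, hpq, one_mul]
        _ ≤ K ^ n * (p * (K * E p q a b n (fun h => f t (a * h))) +
              q * (K * E p q a b n (fun h => f t (b * h)))) := by
            refine mul_le_mul_of_nonneg_left ?_ hKn
            exact add_le_add (mul_le_mul_of_nonneg_left e3 hp.le) (mul_le_mul_of_nonneg_left e4 hq)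
        _ = K ^ (n + 1) * (p * E p q a b n (fun h => f t (a * h)) +
              q * E p q a b n (fun h => f t (b * h))) := by ring

lemma limit_exists (hp : 0 < p) (hq : 0 ≤ q) (hpq : p + q = 1) (t : ℝ) :
    ∃ L : ℝ, Tendsto (fun n : ℕ => (1 / (n : ℝ)) * Real.log (E p q a b n (f t))) atTop (𝓝 L) := by
  obtain ⟨K, hK1, hK⟩ := exists_bound (a := a) (b := b) hp hq hpq t
  have hpos : ∀ n, 0 < E p q a b n (f t) := fun n => E_pos hp hq n _ (f_pos t)
  have hlogK : 0 ≤ Real.log K := Real.log_nonneg hK1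
  have hup : ∀ n : ℕ, Real.log (E p q a b n (f t)) ≤ n * Real.log K := fun n => by
    rw [← Real.log_pow]; exact Real.log_le_log (hpos n) (hK n).1
  have hlo : ∀ n : ℕ, -(n * Real.log K) ≤ Real.log (E p q a b n (f t)) := fun n => by
    have h1 := Real.log_nonneg (hK n).2
    rw [Real.log_mul (by positivity) (hpos n).ne', Real.log_pow] at h1
    linarith
  rcases le_total 0 t with ht | ht
  · have hsub : Subadditive (fun n => Real.log (E p q a b n (f t))) := by
      intro m n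
      rw [← Real.log_mul (hpos m).ne' (hpos n).ne']
      refine Real.log_le_log (hpos _) ?_
      rw [E_add, mul_comm, ← E_const_mul]
      refine E_mono' hp.le hq m _ _ fun g => ?_
      rw [mul_comm, ← E_const_mul]
      exact E_mono' hp.le hq n _ _ fun h => f_mul_le ht g h
    have hb : BddBelow (Set.range fun n : ℕ => Real.log (E p q a b n (f t)) / n) := by
      refine ⟨-Real.log K, ?_⟩
      rintro _ ⟨n, rfl⟩
      rcases Nat.eq_zero_or_pos n with rfl | hn
      · simp [hlogK]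
      · have hn' : (0 : ℝ) < n := by exact_mod_cast hn
        show -Real.log K ≤ Real.log (E p q a b n (f t)) / n
        rw [le_div_iff₀ hn']
        have := hlo n
        linarith
    refine ⟨hsub.lim, (hsub.tendsto_lim hb).congr fun n => ?_⟩
    rw [one_div, inv_mul_eq_div]
  · have hsub : Subadditive (fun n => -Real.log (E p q a b n (f t))) := by
      intro m n
      rw [← neg_add, ← Real.log_mul (hpos m).ne' (hpos n).ne', neg_le_neg_iff]
      refine Real.log_le_log (mul_pos (hpos _) (hpos _)) ?_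
      rw [E_add, mul_comm, ← E_const_mul]
      refine E_mono' hp.le hq m _ _ fun g => ?_
      rw [mul_comm, ← E_const_mul]
      exact E_mono' hp.le hq n _ _ fun h => le_f_mul ht g h
    have hb : BddBelow (Set.range fun n : ℕ => -Real.log (E p q a b n (f t)) / n) := by
      refine ⟨-Real.log K, ?_⟩
      rintro _ ⟨n, rfl⟩
      rcases Nat.eq_zero_or_pos n with rfl | hn
      · simp [hlogK]
      · have hn' : (0 : ℝ) < n := by exact_mod_cast hn
        show -Real.log K ≤ -Real.log (E p q a b n (f t)) / n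
        rw [le_div_iff₀ hn']
        have := hup n
        linarith
    refine ⟨-hsub.lim, (hsub.tendsto_lim hb).neg.congr fun n => ?_⟩
    rw [one_div, inv_mul_eq_div, neg_div, neg_neg]

end Fekete

/-! ### The two matrices -/

/-- The unipotent matrix. -/
noncomputable def u : GL (Fin 2) ℝ :=
  Matrix.GeneralLinearGroup.mkOfDetNeZero !![1, 1; 0, 1] (by simp [Matrix.det_fin_two])

/-- The contracting matrix with positive entries. -/
noncomputable def v : GL (Fin 2) ℝ :=
  Matrix.GeneralLinearGroup.mkOfDetNeZero !![1 / 2, 1 / 4; 1 / 4, 1 / 2]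
    (by simp [Matrix.det_fin_two]; norm_num)

lemma coe_u : (u : Matrix (Fin 2) (Fin 2) ℝ) = !![1, 1; 0, 1] := rfl

lemma coe_v : (v : Matrix (Fin 2) (Fin 2) ℝ) = !![1 / 2, 1 / 4; 1 / 4, 1 / 2] := rfl

lemma coe_u_pow (k : ℕ) : ((u ^ k : GL (Fin 2) ℝ) : Matrix (Fin 2) (Fin 2) ℝ) =
    !![1, (k : ℝ); 0, 1] := by
  induction k with
  | zero => simp [Matrix.one_fin_two]
  | succ k ih =>
    rw [pow_succ, Units.val_mul, ih, coe_u, Matrix.mul_fin_two]
    simp [add_comm]

/-- The sum of the entries. -/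
noncomputable def sm (A : Matrix (Fin 2) (Fin 2) ℝ) : ℝ := A 0 0 + A 0 1 + A 1 0 + A 1 1

/-- Nonnegative entries. -/
def Nonneg (g : GL (Fin 2) ℝ) : Prop := ∀ i j, 0 ≤ (g : Matrix (Fin 2) (Fin 2) ℝ) i j

lemma nonneg_one : Nonneg 1 := by
  intro i j
  fin_cases i <;> fin_cases j <;> simp

lemma nonneg_u (h : GL (Fin 2) ℝ) (hh : Nonneg h) : Nonneg (u * h) := by
  intro i j
  have h0 := hh 0 j
  have h1 := hh 1 j
  rw [Units.val_mul, coe_u, Matrix.mul_apply, Fin.sum_univ_two]
  fin_cases i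
  · simpa using add_nonneg h0 h1
  · simpa using h1

lemma nonneg_v (h : GL (Fin 2) ℝ) (hh : Nonneg h) : Nonneg (v * h) := by
  intro i j
  have h0 := hh 0 j
  have h1 := hh 1 j
  rw [Units.val_mul, coe_v, Matrix.mul_apply, Fin.sum_univ_two]
  fin_cases i
  · simp; positivity
  · simp; positivity

lemma sm_pos (h : GL (Fin 2) ℝ) (hh : Nonneg h) : 0 < sm (h : Matrix (Fin 2) (Fin 2) ℝ) := by
  have h00 := hh 0 0
  have h01 := hh 0 1
  have h10 := hh 1 0
  have h11 := hh 1 1
  by_contra hcon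
  have hle : sm (h : Matrix (Fin 2) (Fin 2) ℝ) ≤ 0 := not_lt.mp hcon
  unfold sm at hle
  have hz : (h : Matrix (Fin 2) (Fin 2) ℝ) = 0 := by
    ext i j
    fin_cases i <;> fin_cases j <;> simp <;> linarith
  exact h.ne_zero hz

lemma sm_le (A : Matrix (Fin 2) (Fin 2) ℝ) : sm A ≤ 4 * opNorm A := by
  unfold sm
  have := entry_le_opNorm A 0 0
  have := entry_le_opNorm A 0 1
  have := entry_le_opNorm A 1 0
  have := entry_le_opNorm A 1 1
  linarith

lemma sm_upow (k : ℕ) (h : GL (Fin 2) ℝ) (hh : Nonneg h) :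
    ((k : ℝ) + 2) / 4 * sm (h : Matrix (Fin 2) (Fin 2) ℝ) ≤
      sm ((u ^ k * (v * h) : GL (Fin 2) ℝ) : Matrix (Fin 2) (Fin 2) ℝ) := by
  have h00 := hh 0 0
  have h01 := hh 0 1
  have h10 := hh 1 0
  have h11 := hh 1 1
  have hk : (0 : ℝ) ≤ k := Nat.cast_nonneg k
  rw [Units.val_mul, Units.val_mul, coe_u_pow, coe_v]
  unfold sm
  simp only [Matrix.mul_apply, Fin.sum_univ_two, Matrix.of_apply, Matrix.cons_val', Matrix.cons_val_zero,
    Matrix.cons_val_one, Matrix.cons_val_fin_one]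
  nlinarith [mul_nonneg hk h00, mul_nonneg hk h01, mul_nonneg hk h10, mul_nonneg hk h11]

lemma sm_upow_one (k : ℕ) : sm ((u ^ k * 1 : GL (Fin 2) ℝ) : Matrix (Fin 2) (Fin 2) ℝ) = k + 2 := by
  rw [mul_one, coe_u_pow]
  simp [sm]
  ring

/-! ### The upper bound on `[-3, -2]` -/

lemma rpow_bound {t : ℝ} (ht : t ≤ -2) (k : ℕ) :
    ((k : ℝ) + 2) ^ t ≤ 1 / ((k : ℝ) + 2) ^ 2 := by
  have h1 : (1 : ℝ) ≤ (k : ℝ) + 2 := by
    have := Nat.cast_nonneg (α := ℝ) k
    linarith
  calc ((k : ℝ) + 2) ^ t ≤ ((k : ℝ) + 2) ^ (-2 : ℝ) := Real.rpow_le_rpow_of_exponent_le h1 ht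
    _ = 1 / ((k : ℝ) + 2) ^ 2 := by
      rw [Real.rpow_neg (by linarith), one_div]
      norm_num

lemma four_bound {t : ℝ} (ht : -3 ≤ t) : ((1 : ℝ) / 4) ^ t ≤ 64 := by
  calc ((1 : ℝ) / 4) ^ t ≤ (1 / 4 : ℝ) ^ (-3 : ℝ) :=
        Real.rpow_le_rpow_of_exponent_ge (by norm_num) (by norm_num) ht
    _ = 64 := by
      rw [Real.rpow_neg (by norm_num)]
      norm_num

/-- `p`, the weight of `u`. -/
noncomputable abbrev pp : ℝ := 64 / 65

/-- `q`, the weight of `v`. -/
noncomputable abbrev qq : ℝ := 1 / 65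

lemma renewal {t : ℝ} (ht3 : -3 ≤ t) (ht2 : t ≤ -2) (n : ℕ) : ∀ k : ℕ,
    E pp qq u v n (fun h => sm ((u ^ k * h : GL (Fin 2) ℝ) : Matrix (Fin 2) (Fin 2) ℝ) ^ t) ≤
      pp ^ n / (k + 1) := by
  induction n with
  | zero =>
    intro k
    have hk : (0 : ℝ) ≤ k := Nat.cast_nonneg k
    change sm ((u ^ k * 1 : GL (Fin 2) ℝ) : Matrix (Fin 2) (Fin 2) ℝ) ^ t ≤ _
    rw [sm_upow_one, pow_zero]
    refine (rpow_bound ht2 k).trans ?_
    rw [div_le_div_iff₀ (by positivity) (by positivity)]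
    nlinarith
  | succ n ih =>
    intro k
    have hk : (0 : ℝ) ≤ k := Nat.cast_nonneg k
    have h1 := ih (k + 1)
    have h2 : E pp qq u v n (fun h =>
        sm ((u ^ k * (u * h) : GL (Fin 2) ℝ) : Matrix (Fin 2) (Fin 2) ℝ) ^ t) ≤
        pp ^ n / (k + 2) := by
      have h3 : (fun h : GL (Fin 2) ℝ =>
          sm ((u ^ k * (u * h) : GL (Fin 2) ℝ) : Matrix (Fin 2) (Fin 2) ℝ) ^ t) =
          (fun h => sm ((u ^ (k + 1) * h : GL (Fin 2) ℝ) : Matrix (Fin 2) (Fin 2) ℝ) ^ t) := by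
        funext h
        rw [pow_succ, mul_assoc]
      rw [h3]
      refine h1.trans (le_of_eq ?_)
      push_cast
      ring
    have h4 : E pp qq u v n (fun h =>
        sm ((u ^ k * (v * h) : GL (Fin 2) ℝ) : Matrix (Fin 2) (Fin 2) ℝ) ^ t) ≤
        64 / ((k : ℝ) + 2) ^ 2 * pp ^ n := by
      have h0 := ih 0
      simp only [pow_zero, one_mul, Nat.cast_zero, zero_add, div_one] at h0
      calc E pp qq u v n (fun h =>
          sm ((u ^ k * (v * h) : GL (Fin 2) ℝ) : Matrix (Fin 2) (Fin 2) ℝ) ^ t)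
          ≤ E pp qq u v n (fun h => 64 / ((k : ℝ) + 2) ^ 2 *
              sm (h : Matrix (Fin 2) (Fin 2) ℝ) ^ t) := by
            refine E_mono (by norm_num) (by norm_num) Nonneg nonneg_one nonneg_u nonneg_v n _ _
              fun h hh => ?_
            have hs := sm_pos h hh
            have h5 := sm_upow k h hh
            have h6 : 0 < ((k : ℝ) + 2) / 4 * sm (h : Matrix (Fin 2) (Fin 2) ℝ) := by positivity
            calc sm ((u ^ k * (v * h) : GL (Fin 2) ℝ) : Matrix (Fin 2) (Fin 2) ℝ) ^ t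
                ≤ (((k : ℝ) + 2) / 4 * sm (h : Matrix (Fin 2) (Fin 2) ℝ)) ^ t :=
                  Real.rpow_le_rpow_of_nonpos h6 h5 (by linarith)
              _ = (1 / 4 : ℝ) ^ t * ((k : ℝ) + 2) ^ t *
                    sm (h : Matrix (Fin 2) (Fin 2) ℝ) ^ t := by
                  rw [← Real.mul_rpow (by norm_num) (by positivity),
                    ← Real.mul_rpow (by positivity) hs.le]
                  congr 1
                  ring
              _ ≤ 64 * (1 / ((k : ℝ) + 2) ^ 2) * sm (h : Matrix (Fin 2) (Fin 2) ℝ) ^ t := by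
                  refine mul_le_mul_of_nonneg_right ?_ (Real.rpow_nonneg hs.le t)
                  exact mul_le_mul (four_bound ht3) (rpow_bound ht2 k)
                    (Real.rpow_nonneg (by positivity) t) (by norm_num)
              _ = 64 / ((k : ℝ) + 2) ^ 2 * sm (h : Matrix (Fin 2) (Fin 2) ℝ) ^ t := by ring
        _ = 64 / ((k : ℝ) + 2) ^ 2 *
              E pp qq u v n (fun h => sm (h : Matrix (Fin 2) (Fin 2) ℝ) ^ t) := by
            rw [E_const_mul]
        _ ≤ 64 / ((k : ℝ) + 2) ^ 2 * pp ^ n :=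
            mul_le_mul_of_nonneg_left h0 (by positivity)
    simp only [E]
    calc pp * E pp qq u v n (fun h =>
          sm ((u ^ k * (u * h) : GL (Fin 2) ℝ) : Matrix (Fin 2) (Fin 2) ℝ) ^ t) +
        qq * E pp qq u v n (fun h =>
          sm ((u ^ k * (v * h) : GL (Fin 2) ℝ) : Matrix (Fin 2) (Fin 2) ℝ) ^ t)
        ≤ pp * (pp ^ n / (k + 2)) + qq * (64 / ((k : ℝ) + 2) ^ 2 * pp ^ n) :=
          add_le_add (mul_le_mul_of_nonneg_left h2 (by norm_num))
            (mul_le_mul_of_nonneg_left h4 (by norm_num))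
      _ = pp ^ (n + 1) * (1 / ((k : ℝ) + 2) + 1 / ((k : ℝ) + 2) ^ 2) := by
          rw [pow_succ, pp, qq]; ring
      _ ≤ pp ^ (n + 1) * (1 / ((k : ℝ) + 1)) := by
          refine mul_le_mul_of_nonneg_left ?_ (by positivity)
          rw [div_add_div _ _ (by positivity) (by positivity),
            div_le_div_iff₀ (by positivity) (by positivity)]
          nlinarith [mul_nonneg hk hk]
      _ = pp ^ (n + 1) / (k + 1) := by ring

lemma upper {t : ℝ} (ht3 : -3 ≤ t) (ht2 : t ≤ -2) (n : ℕ) :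
    E pp qq u v n (f t) ≤ 64 * pp ^ n := by
  have h0 := renewal ht3 ht2 n 0
  simp only [pow_zero, one_mul, Nat.cast_zero, zero_add, div_one] at h0
  calc E pp qq u v n (f t)
      ≤ E pp qq u v n (fun h => 64 * sm (h : Matrix (Fin 2) (Fin 2) ℝ) ^ t) := by
        refine E_mono (by norm_num) (by norm_num) Nonneg nonneg_one nonneg_u nonneg_v n _ _
              fun h hh => ?_
        have hs := sm_pos h hh
        have h1 := sm_le (h : Matrix (Fin 2) (Fin 2) ℝ)
        have h2 : 1 / 4 * sm (h : Matrix (Fin 2) (Fin 2) ℝ) ≤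
          opNorm (h : Matrix (Fin 2) (Fin 2) ℝ) := by linarith
        calc f t h ≤ (1 / 4 * sm (h : Matrix (Fin 2) (Fin 2) ℝ)) ^ t :=
              Real.rpow_le_rpow_of_nonpos (by positivity) h2 (by linarith)
          _ = (1 / 4 : ℝ) ^ t * sm (h : Matrix (Fin 2) (Fin 2) ℝ) ^ t :=
              Real.mul_rpow (by norm_num) hs.le
          _ ≤ 64 * sm (h : Matrix (Fin 2) (Fin 2) ℝ) ^ t :=
              mul_le_mul_of_nonneg_right (four_bound ht3) (Real.rpow_nonneg hs.le t)
    _ = 64 * E pp qq u v n (fun h => sm (h : Matrix (Fin 2) (Fin 2) ℝ) ^ t) := by rw [E_const_mul]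
    _ ≤ 64 * pp ^ n := mul_le_mul_of_nonneg_left h0 (by norm_num)

lemma opNorm_upow (n : ℕ) : opNorm ((u ^ n : GL (Fin 2) ℝ) : Matrix (Fin 2) (Fin 2) ℝ) ≤ n + 2 := by
  have hn : (0 : ℝ) ≤ n := Nat.cast_nonneg n
  refine opNorm_le_of_sq _ _ (by positivity) ?_
  rw [coe_u_pow]
  simp
  nlinarith

lemma lower {t : ℝ} (ht : t ≤ 0) (n : ℕ) :
    pp ^ n * ((n : ℝ) + 2) ^ t ≤ E pp qq u v n (f t) := by
  have hn : (0 : ℝ) ≤ n := Nat.cast_nonneg n
  refine le_trans ?_ (E_lower (by norm_num) (by norm_num) n (f t) fun h => (f_pos t h).le)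
  refine mul_le_mul_of_nonneg_left ?_ (by positivity)
  exact Real.rpow_le_rpow_of_nonpos (opNorm_pos _) (opNorm_upow n) ht

lemma opNorm_v : opNorm (v : Matrix (Fin 2) (Fin 2) ℝ) ≤ 4 / 5 := by
  refine opNorm_le_of_sq _ _ (by norm_num) ?_
  rw [coe_v]
  simp
  norm_num

lemma opNorm_vpow (n : ℕ) :
    opNorm ((v ^ n : GL (Fin 2) ℝ) : Matrix (Fin 2) (Fin 2) ℝ) ≤ (4 / 5) ^ n := by
  induction n with
  | zero => simp [opNorm_one]
  | succ n ih =>
    rw [pow_succ, Units.val_mul, pow_succ]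
    exact (opNorm_mul_le _ _).trans (mul_le_mul ih opNorm_v (opNorm_nonneg _) (by positivity))

lemma lower_v (n : ℕ) : (qq * (5 / 4) ^ 20) ^ n ≤ E pp qq u v n (f (-20)) := by
  rw [E_swap]
  refine le_trans ?_ (E_lower (by norm_num) (by norm_num) n (f (-20)) fun h => (f_pos _ h).le)
  rw [mul_pow]
  refine mul_le_mul_of_nonneg_left ?_ (by positivity)
  have h1 : ((4 / 5 : ℝ) ^ n) ^ (-20 : ℝ) ≤ f (-20) (v ^ n) :=
    Real.rpow_le_rpow_of_nonpos (opNorm_pos _) (opNorm_vpow n) (by norm_num)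
  refine le_trans (le_of_eq ?_) h1
  rw [Real.rpow_neg (by positivity)]
  have h2 : ((4 / 5 : ℝ) ^ n) ^ (20 : ℝ) = ((4 / 5 : ℝ) ^ n) ^ (20 : ℕ) := by
    rw [← Real.rpow_natCast]; norm_num
  rw [h2, ← pow_mul, ← pow_mul, mul_comm 20 n, ← inv_pow]
  norm_num

/-! ### Irreducibility and proximality -/

lemma mem_support_left {p q : ℝ} (hp : 0 < p) (a b : GL (Fin 2) ℝ) :
    a ∈ (twoPoint p q a b).support := by
  rw [Measure.mem_support_iff_forall]
  intro U hU
  have : ENNReal.ofReal p ≤ twoPoint p q a b U := by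
    rw [twoPoint, Measure.add_apply, Measure.smul_apply, Measure.smul_apply,
      Measure.dirac_apply_of_mem (mem_of_mem_nhds hU), smul_eq_mul, mul_one]
    exact le_self_add
  exact lt_of_lt_of_le (ENNReal.ofReal_pos.mpr hp) this

lemma mem_support_right {p q : ℝ} (hq : 0 < q) (a b : GL (Fin 2) ℝ) :
    b ∈ (twoPoint p q a b).support := by
  rw [Measure.mem_support_iff_forall]
  intro U hU
  have : ENNReal.ofReal q ≤ twoPoint p q a b U := by
    have hb : Measure.dirac b U = 1 := Measure.dirac_apply_of_mem (mem_of_mem_nhds hU)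
    rw [twoPoint, Measure.add_apply, Measure.smul_apply, Measure.smul_apply, hb, smul_eq_mul,
      smul_eq_mul, mul_one]
    exact le_add_self
  exact lt_of_lt_of_le (ENNReal.ofReal_pos.mpr hq) this

lemma stronglyIrreducible_of_mem {S : Set (GL (Fin 2) ℝ)} (hu : u ∈ S) (hv : v ∈ S) :
    StronglyIrreducible S := by
  intro F hF hprop hinv
  -- a vector of the union with nonzero second coordinate
  have step1 : ∃ W ∈ F, ∃ x ∈ W, x 1 ≠ 0 := by
    obtain ⟨W, hW⟩ := hF
    obtain ⟨x, hx, hx0⟩ := (Submodule.ne_bot_iff W).mp (hprop W hW).1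
    by_cases h1 : x 1 = 0
    · have h0 : x 0 ≠ 0 := by
        intro h0
        apply hx0
        ext i
        fin_cases i
        · exact h0
        · exact h1
      obtain ⟨W', hW', hx'⟩ := hinv v hv W hW x hx
      refine ⟨W', hW', _, hx', ?_⟩
      rw [coe_v]
      simp [Matrix.mulVec, dotProduct, Fin.sum_univ_two, h1, h0]
    · exact ⟨W, hW, x, hx, h1⟩
  obtain ⟨W, hW, x, hx, h1⟩ := step1
  -- the orbit under `u`
  have step2 : ∀ n : ℕ, ∃ W' ∈ F, (![x 0 + n * x 1, x 1] : Fin 2 → ℝ) ∈ W' := by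
    intro n
    induction n with
    | zero =>
      refine ⟨W, hW, ?_⟩
      have : (![x 0 + (0 : ℕ) * x 1, x 1] : Fin 2 → ℝ) = x := by
        ext i; fin_cases i <;> simp
      rw [this]; exact hx
    | succ n ih =>
      obtain ⟨W', hW', hx'⟩ := ih
      obtain ⟨W'', hW'', hx''⟩ := hinv u hu W' hW' _ hx'
      refine ⟨W'', hW'', ?_⟩
      have : (![x 0 + (n + 1 : ℕ) * x 1, x 1] : Fin 2 → ℝ) =
          (u : Matrix (Fin 2) (Fin 2) ℝ) *ᵥ ![x 0 + n * x 1, x 1] := by
        rw [coe_u]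
        ext i
        fin_cases i
        · simp [Matrix.mulVec, dotProduct, Fin.sum_univ_two]; ring
        · simp [Matrix.mulVec, dotProduct, Fin.sum_univ_two]
      rw [this]; exact hx''
  choose φ hφ hφx using step2
  obtain ⟨m, n, hmn, hφmn⟩ : ∃ m n : ℕ, m ≠ n ∧ φ m = φ n := by
    have : ¬ Function.Injective (fun n : ℕ => (⟨φ n, hφ n⟩ : F)) := not_injective_infinite_finite _
    simp only [Function.Injective, not_forall] at this
    obtain ⟨m, n, h, hne⟩ := this
    exact ⟨m, n, hne, congrArg Subtype.val h⟩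
  have hm := hφx m
  have hn := hφx n
  rw [← hφmn] at hn
  have hdiff := (φ m).sub_mem hm hn
  have he1 : (![1, 0] : Fin 2 → ℝ) ∈ φ m := by
    have hmn' : (m : ℝ) - n ≠ 0 := sub_ne_zero.mpr (by exact_mod_cast hmn)
    have : (![1, 0] : Fin 2 → ℝ) = (((m : ℝ) - n) * x 1)⁻¹ •
        ((![x 0 + m * x 1, x 1] : Fin 2 → ℝ) - ![x 0 + n * x 1, x 1]) := by
      ext i
      fin_cases i
      · simp
        field_simp
      · simp
    rw [this]
    exact (φ m).smul_mem _ hdiff
  have he2 : (![0, 1] : Fin 2 → ℝ) ∈ φ m := by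
    have : (![0, 1] : Fin 2 → ℝ) = (x 1)⁻¹ • ((![x 0 + m * x 1, x 1] : Fin 2 → ℝ) -
        (x 0 + m * x 1) • ![1, 0]) := by
      ext i
      fin_cases i
      · simp
      · simp [h1]
    rw [this]
    exact (φ m).smul_mem _ ((φ m).sub_mem hm ((φ m).smul_mem _ he1))
  refine (hprop (φ m) (hφ m)).2 (Submodule.eq_top_iff'.mpr fun y => ?_)
  have : y = y 0 • (![1, 0] : Fin 2 → ℝ) + y 1 • ![0, 1] := by
    ext i; fin_cases i <;> simp
  rw [this]
  exact (φ m).add_mem ((φ m).smul_mem _ he1) ((φ m).smul_mem _ he2)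

lemma proximal_of_mem {S : Set (GL (Fin 2) ℝ)} (hv : v ∈ S) : Proximal S := by
  have hchar : ((v : Matrix (Fin 2) (Fin 2) ℝ).map (algebraMap ℝ ℂ)).charpoly =
      (Polynomial.X - Polynomial.C (3 / 4 : ℂ)) * (Polynomial.X - Polynomial.C (1 / 4 : ℂ)) := by
    rw [Matrix.charpoly_fin_two, coe_v]
    have h1 : ((!![1 / 2, 1 / 4; 1 / 4, 1 / 2] : Matrix (Fin 2) (Fin 2) ℝ).map
        (algebraMap ℝ ℂ)).trace = 1 := by
      simp [Matrix.trace_fin_two]; norm_num
    have h2 : ((!![1 / 2, 1 / 4; 1 / 4, 1 / 2] : Matrix (Fin 2) (Fin 2) ℝ).map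
        (algebraMap ℝ ℂ)).det = 3 / 16 := by
      simp [Matrix.det_fin_two]; norm_num
    rw [h1, h2]
    have h3 : (Polynomial.C (3 / 16 : ℂ)) = Polynomial.C (3 / 4 : ℂ) * Polynomial.C (1 / 4 : ℂ) := by
      rw [← Polynomial.C_mul]; norm_num
    have h4 : (Polynomial.C (1 : ℂ)) = Polynomial.C (3 / 4 : ℂ) + Polynomial.C (1 / 4 : ℂ) := by
      rw [← Polynomial.C_add]; norm_num
    rw [h3, h4]
    ring
  refine ⟨v, hv, (3 / 4 : ℂ), ?_, ?_⟩
  · rw [hchar, Polynomial.rootMultiplicity_mul, Polynomial.rootMultiplicity_X_sub_C_self,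
      Polynomial.rootMultiplicity_X_sub_C, if_neg (by norm_num)]
    exact mul_ne_zero (Polynomial.X_sub_C_ne_zero _) (Polynomial.X_sub_C_ne_zero _)
  · intro w hw hne
    rw [hchar, Polynomial.IsRoot.def, Polynomial.eval_mul] at hw
    simp only [Polynomial.eval_sub, Polynomial.eval_X, Polynomial.eval_C, mul_eq_zero] at hw
    rcases hw with hw | hw
    · exact absurd (sub_eq_zero.mp hw) hne
    · rw [sub_eq_zero.mp hw]
      norm_num

/-! ### The main theorem -/

lemma log_growth (t : ℝ) :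
    Tendsto (fun n : ℕ => (1 / (n : ℝ)) * (t * Real.log ((n : ℝ) + 2))) atTop (𝓝 0) := by
  have h1 : Tendsto (fun x : ℝ => Real.log x / x) atTop (𝓝 0) := by
    simpa using Real.isLittleO_log_id_atTop.tendsto_div_nhds_zero
  have h2 : Tendsto (fun n : ℕ => (n : ℝ) + 2) atTop atTop :=
    tendsto_atTop_add_const_right _ _ tendsto_natCast_atTop_atTop
  have h3 : Tendsto (fun n : ℕ => Real.log ((n : ℝ) + 2) / ((n : ℝ) + 2)) atTop (𝓝 0) :=
    h1.comp h2
  have h4 : Tendsto (fun n : ℕ => 1 + 2 / (n : ℝ)) atTop (𝓝 (1 + 0)) :=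
    (tendsto_const_nhds.div_atTop tendsto_natCast_atTop_atTop).const_add _
  have h5 := (h3.mul h4).const_mul t
  simp only [add_zero, mul_one, mul_zero] at h5
  refine h5.congr' ?_
  filter_upwards [eventually_gt_atTop 0] with n hn
  have hn' : (0 : ℝ) < n := by exact_mod_cast hn
  field_simp

/-- There is a compactly supported, strongly irreducible and proximal probability measure on
`GL(2, ℝ)` whose moment exponent `k` fails to be real-analytic at two or more points. -/
theorem result : ∃ μ : Measure (GL (Fin 2) ℝ), IsProbabilityMeasure μ ∧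
    (∃ K : Set (GL (Fin 2) ℝ), IsCompact K ∧ μ Kᶜ = 0) ∧
    StronglyIrreducible (semigroupOf μ) ∧ Proximal (semigroupOf μ) ∧
    ∃ k : ℝ → ℝ, IsMomentExponent μ k ∧ 2 ≤ {t : ℝ | ¬ AnalyticAt ℝ k t}.encard := by
  have hp : (0 : ℝ) < pp := by norm_num
  have hq : (0 : ℝ) < qq := by norm_num
  have hpq : pp + qq = 1 := by norm_num
  have hu : u ∈ semigroupOf (twoPoint pp qq u v) :=
    subset_closure (Subsemigroup.subset_closure (mem_support_left hp u v))
  have hv : v ∈ semigroupOf (twoPoint pp qq u v) :=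
    subset_closure (Subsemigroup.subset_closure (mem_support_right hq u v))
  refine ⟨twoPoint pp qq u v, twoPoint_prob hp.le hq.le hpq u v, ⟨{u, v}, ?_, ?_⟩,
    stronglyIrreducible_of_mem hu hv, proximal_of_mem hv, ?_⟩
  · exact (Set.toFinite _).isCompact
  · rw [twoPoint, Measure.add_apply, Measure.smul_apply, Measure.smul_apply,
      Measure.dirac_apply, Measure.dirac_apply]
    simp
  choose k hk using fun t => limit_exists (a := u) (b := v) hp hq.le hpq t
  have hkE : IsMomentExponent (twoPoint pp qq u v) k := by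
    intro t
    refine (hk t).congr fun n => ?_
    rw [integral_eq_E hp.le hq.le hpq]
    rfl
  refine ⟨k, hkE, ?_⟩
  have hEpos : ∀ t n, 0 < E pp qq u v n (f t) := fun t n => E_pos hp hq.le n _ (f_pos t)
  -- `k = log p` on `[-3, -2]`
  have hflat : ∀ t : ℝ, -3 ≤ t → t ≤ -2 → k t = Real.log pp := by
    intro t h3 h2
    apply le_antisymm
    · have hlim : Tendsto (fun n : ℕ => (1 / (n : ℝ)) * Real.log 64 + Real.log pp) atTop
          (𝓝 (0 * Real.log 64 + Real.log pp)) :=
        (tendsto_one_div_atTop_nhds_zero_nat.mul_const _).add_const _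
      rw [zero_mul, zero_add] at hlim
      refine le_of_tendsto_of_tendsto (hk t) hlim ?_
      filter_upwards [eventually_gt_atTop 0] with n hn
      have hn' : (0 : ℝ) < n := by exact_mod_cast hn
      have h4 := Real.log_le_log (hEpos t n) (upper h3 h2 n)
      rw [Real.log_mul (by norm_num) (by positivity), Real.log_pow] at h4
      calc 1 / (n : ℝ) * Real.log (E pp qq u v n (f t))
          ≤ 1 / (n : ℝ) * (Real.log 64 + n * Real.log pp) :=
            mul_le_mul_of_nonneg_left h4 (by positivity)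
        _ = 1 / (n : ℝ) * Real.log 64 + Real.log pp := by field_simp
    · have hlim : Tendsto (fun n : ℕ => (1 / (n : ℝ)) * (t * Real.log ((n : ℝ) + 2)) +
          Real.log pp) atTop (𝓝 (0 + Real.log pp)) := (log_growth t).add_const _
      rw [zero_add] at hlim
      refine le_of_tendsto_of_tendsto hlim (hk t) ?_
      filter_upwards [eventually_gt_atTop 0] with n hn
      have hn' : (0 : ℝ) < n := by exact_mod_cast hn
      have h4 := Real.log_le_log (by positivity) (lower (by linarith : t ≤ 0) n)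
      rw [Real.log_mul (by positivity) (by positivity), Real.log_pow, Real.log_rpow (by positivity)]
        at h4
      calc 1 / (n : ℝ) * (t * Real.log ((n : ℝ) + 2)) + Real.log pp
          = 1 / (n : ℝ) * (n * Real.log pp + t * Real.log ((n : ℝ) + 2)) := by
            field_simp
            ring
        _ ≤ 1 / (n : ℝ) * Real.log (E pp qq u v n (f t)) :=
            mul_le_mul_of_nonneg_left h4 (by positivity)
  have hlogp : Real.log pp < 0 := Real.log_neg hp (by norm_num)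
  -- `k 0 = 0`
  have hk0 : k 0 = 0 := by
    refine tendsto_nhds_unique (hk 0) ?_
    refine (tendsto_const_nhds (x := (0 : ℝ))).congr fun n => ?_
    have : f 0 = fun _ => 1 := by
      funext g
      simp [f]
    rw [this, E_const hpq, Real.log_one, mul_zero]
  -- `k (-20) > 0`
  have hk20 : 0 < k (-20) := by
    have h1 : 0 < Real.log (qq * (5 / 4) ^ 20) := Real.log_pos (by norm_num)
    refine lt_of_lt_of_le h1 (ge_of_tendsto (hk (-20)) ?_)
    filter_upwards [eventually_gt_atTop 0] with n hn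
    have hn' : (0 : ℝ) < n := by exact_mod_cast hn
    have h4 := Real.log_le_log (by positivity) (lower_v n)
    rw [Real.log_pow] at h4
    calc Real.log (qq * (5 / 4) ^ 20) = 1 / (n : ℝ) * (n * Real.log (qq * (5 / 4) ^ 20)) := by
          field_simp
      _ ≤ 1 / (n : ℝ) * Real.log (E pp qq u v n (f (-20))) :=
          mul_le_mul_of_nonneg_left h4 (by positivity)
  have hev : k =ᶠ[𝓝 (-5 / 2 : ℝ)] fun _ => Real.log pp := by
    filter_upwards [Ioo_mem_nhds (by norm_num : (-3 : ℝ) < -5 / 2) (by norm_num : (-5 / 2 : ℝ) < -2)]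
      with t ht
    exact hflat t ht.1.le ht.2.le
  -- conclusion
  by_contra hcard
  rw [not_le] at hcard
  have hsub : {t : ℝ | ¬ AnalyticAt ℝ k t}.Subsingleton := by
    rw [← Set.encard_le_one_iff_subsingleton]
    exact Order.le_of_lt_add_one (by simpa [one_add_one_eq_two] using hcard)
  have hmid : AnalyticAt ℝ k (-5 / 2) := (analyticAt_const).congr hev.symm
  by_cases hright : ∀ t : ℝ, -5 / 2 ≤ t → AnalyticAt ℝ k t
  · have h := AnalyticOnNhd.eqOn_of_preconnected_of_eventuallyEq (𝕜 := ℝ) (f := k)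
      (g := fun _ => Real.log pp) (U := Set.Ici (-5 / 2 : ℝ)) (fun t ht => hright t ht)
      (fun _ _ => analyticAt_const) isPreconnected_Ici (z₀ := -5 / 2) Set.self_mem_Ici hev
    have h0 := h (show (0 : ℝ) ∈ Set.Ici (-5 / 2 : ℝ) by norm_num)
    simp only [hk0] at h0
    linarith
  · push Not at hright
    obtain ⟨r, hr, hrna⟩ := hright
    have hr' : -5 / 2 < r := lt_of_le_of_ne hr fun h => hrna (h ▸ hmid)
    have hleft : ∀ t : ℝ, t ≤ -5 / 2 → AnalyticAt ℝ k t := by
      intro t ht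
      by_contra hna
      have : t = r := hsub hna hrna
      linarith
    have h := AnalyticOnNhd.eqOn_of_preconnected_of_eventuallyEq (𝕜 := ℝ) (f := k)
      (g := fun _ => Real.log pp) (U := Set.Iic (-5 / 2 : ℝ)) (fun t ht => hleft t ht)
      (fun _ _ => analyticAt_const) isPreconnected_Iic (z₀ := -5 / 2) Set.self_mem_Iic hev
    have h0 := h (show (-20 : ℝ) ∈ Set.Iic (-5 / 2 : ℝ) by norm_num)
    simp only at h0
    linarith

end Pool.Agent.Results.MP_2489e7_pr.TwoBreakPoints
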